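import Mathlib

/-!
# Inversion-minimal matrices of fixed RSK shape need not be Hankel

For the partition `(6, 6, 1, 1)` (so `n = 4`) there is a matrix of minimal inversion number among
the `4 × 4` matrices of RSK shape `(6, 6, 1, 1)` which is not Hankel.
-/

namespace Pool.Agent.Results.MP_5baea4_co.NotHankel

/-- Row insertion of `x` into a weakly increasing row: `x` replaces the leftmost entry greater than
`x`, which is bumped, or is appended at the end if there is no such entry. -/
def rowInsert (x : ℕ) : List ℕ → List ℕ × Option ℕ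
  | [] => ([x], none)
  | y :: r => if x < y then (x :: r, some y) else (y :: (rowInsert x r).1, (rowInsert x r).2)

/-- Schensted insertion of `x` into a tableau (the list of its rows): the entry bumped from a row
is inserted into the next row. -/
def insert (x : ℕ) : List (List ℕ) → List (List ℕ)
  | [] => [[x]]
  | r :: T =>
    match (rowInsert x r).2 with
    | none => (rowInsert x r).1 :: T
    | some y => (rowInsert x r).1 :: insert y T

/-- The insertion tableau of a word. -/
def tableau (w : List ℕ) : List (List ℕ) := w.foldl (fun T x => insert x T) []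

/-- The bottom line of the two-line array of `M`: the pairs `(i, j)`, each taken `M i j` times, in
the order of increasing `i` and, for equal `i`, of increasing `j`; the bottom entries `j`. -/
def bottom {n : ℕ} (M : Matrix (Fin n) (Fin n) ℕ) : List ℕ :=
  (List.finRange n).flatMap fun i => (List.finRange n).flatMap fun j =>
    List.replicate (M i j) (j : ℕ)

/-- The shape of `M`: the row lengths of the insertion tableau. -/
def shape {n : ℕ} (M : Matrix (Fin n) (Fin n) ℕ) : List ℕ := (tableau (bottom M)).map List.length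

/-- The inversion number: the sum of `m_{i,j} m_{k,l}` over `i < k`, `j > l`. -/
def inv {n : ℕ} (M : Matrix (Fin n) (Fin n) ℕ) : ℕ :=
  ∑ i, ∑ j, ∑ k, ∑ l, if i < k ∧ l < j then M i j * M k l else 0

/-- Partitions with exactly `n` positive parts. -/
def IsPartition (n : ℕ) (la : List ℕ) : Prop :=
  la.length = n ∧ la.Pairwise (· ≥ ·) ∧ ∀ x ∈ la, 0 < x

/-- `M` is a matrix of shape `la` with the least inversion number. -/
def IsMinimal {n : ℕ} (la : List ℕ) (M : Matrix (Fin n) (Fin n) ℕ) : Prop :=
  shape M = la ∧ ∀ N : Matrix (Fin n) (Fin n) ℕ, shape N = la → inv M ≤ inv N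

/-- Hankel matrices. -/
def IsHankel {n : ℕ} (M : Matrix (Fin n) (Fin n) ℕ) : Prop :=
  ∃ s : ℕ → ℕ, ∀ i j : Fin n, M i j = s (i + j)

/-! ### The size of the tableau -/

lemma rowInsert_length (x : ℕ) (r : List ℕ) :
    (rowInsert x r).1.length = r.length + (if (rowInsert x r).2 = none then 1 else 0) := by
  induction r with
  | nil => simp [rowInsert]
  | cons y r ih =>
    unfold rowInsert
    split_ifs with h1 h2 h2
    · simp_all
    · simp
    · simp only [List.length_cons, ih]
      simp only at h2
      simp [h2]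
    · simp only [List.length_cons, ih]
      simp only at h2
      simp [h2]

/-- number of cells -/
def cells (T : List (List ℕ)) : ℕ := (T.map List.length).sum

lemma insert_cells (T : List (List ℕ)) : ∀ x, cells (insert x T) = cells T + 1 := by
  induction T with
  | nil => intro x; simp [insert, cells]
  | cons r T ih =>
    intro x
    have h := rowInsert_length x r
    unfold insert
    rcases hb : (rowInsert x r).2 with _ | y
    · rw [hb] at h
      simp only [cells, List.map_cons, List.sum_cons] at *
      rw [h]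
      simp only [if_true]
      omega
    · rw [hb] at h
      have h1 := ih y
      simp only [cells, List.map_cons, List.sum_cons] at *
      rw [h, h1]
      simp
      omega

lemma tableau_cells (w : List ℕ) : cells (tableau w) = w.length := by
  have : ∀ (w : List ℕ) (T : List (List ℕ)),
      cells (w.foldl (fun T x => insert x T) T) = cells T + w.length := by
    intro w
    induction w with
    | nil => intro T; simp
    | cons x w ih => intro T; rw [List.foldl_cons, ih, insert_cells]; simp; omega
  have h := this w []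
  simpa [cells, tableau] using h

/-! ### Hankel matrices of size four -/

/-- the bottom line for a Hankel matrix -/
def hw (a b c d e f g : ℕ) : List ℕ :=
  List.replicate a 0 ++ (List.replicate b 1 ++ (List.replicate c 2 ++ (List.replicate d 3 ++
  (List.replicate b 0 ++ (List.replicate c 1 ++ (List.replicate d 2 ++ (List.replicate e 3 ++
  (List.replicate c 0 ++ (List.replicate d 1 ++ (List.replicate e 2 ++ (List.replicate f 3 ++
  (List.replicate d 0 ++ (List.replicate e 1 ++ (List.replicate f 2 ++
    List.replicate g 3))))))))))))))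

/-- the inversion number of a Hankel matrix -/
def hi (_a b c d e f _g : ℕ) : ℕ :=
  -- i = 0
  b * (b + c + d) + c * ((b + c + d) + (c + d + e)) + d * ((b + c + d) + (c + d + e) + (d + e + f)) +
  -- i = 1
  c * (c + d) + d * ((c + d) + (d + e)) + e * ((c + d) + (d + e) + (e + f)) +
  -- i = 2
  d * d + e * (d + e) + f * (d + e + f)

/-- the check -/
def check : Bool :=
  (List.range 4).all fun d => (List.range 5).all fun c => (List.range 5).all fun e =>
    (3 * c + 4 * d + 3 * e > 14) ||
    (List.range 8).all fun b => (3 * c + 4 * d + 3 * e + 2 * b > 14) ||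
    (List.range 8).all fun f => (3 * c + 4 * d + 3 * e + 2 * b + 2 * f > 14) ||
    (List.range (15 - (3 * c + 4 * d + 3 * e + 2 * b + 2 * f))).all fun a =>
      (Nat.ble 29 (hi a b c d e f (14 - (3 * c + 4 * d + 3 * e + 2 * b + 2 * f) - a))) ||
      !((tableau (hw a b c d e f (14 - (3 * c + 4 * d + 3 * e + 2 * b + 2 * f) - a))).map
        List.length == [6, 6, 1, 1])

lemma check_true : check = true := by decide +kernel

lemma hankel_bottom (s : ℕ → ℕ) (M : Matrix (Fin 4) (Fin 4) ℕ)
    (h : ∀ i j : Fin 4, M i j = s (i + j)) :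
    bottom M = hw (s 0) (s 1) (s 2) (s 3) (s 4) (s 5) (s 6) := by
  simp only [bottom, h]
  simp [List.finRange_succ, hw]

lemma hankel_inv (s : ℕ → ℕ) (M : Matrix (Fin 4) (Fin 4) ℕ)
    (h : ∀ i j : Fin 4, M i j = s (i + j)) :
    inv M = hi (s 0) (s 1) (s 2) (s 3) (s 4) (s 5) (s 6) := by
  simp only [inv, h]
  simp [Fin.sum_univ_four, hi]
  ring

lemma hankel_ge (M : Matrix (Fin 4) (Fin 4) ℕ) (hM : IsHankel M) (hs : shape M = [6, 6, 1, 1]) :
    29 ≤ inv M := by
  obtain ⟨s, h⟩ := hM
  have hb := hankel_bottom s M h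
  have hc := tableau_cells (bottom M)
  have hc2 : cells (tableau (bottom M)) = 14 := by
    unfold shape at hs
    unfold cells
    rw [hs]
    rfl
  rw [hc2] at hc
  have hlen : 14 = s 0 + 2 * s 1 + 3 * s 2 + 4 * s 3 + 3 * s 4 + 2 * s 5 + s 6 := by
    rw [hc, hb]
    simp [hw]
    ring
  rw [hankel_inv s M h]
  unfold shape at hs
  rw [hb] at hs
  generalize s 0 = a at *
  generalize s 1 = b at *
  generalize s 2 = c at *
  generalize s 3 = d at *
  generalize s 4 = e at *
  generalize s 5 = f at *
  generalize s 6 = g at *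
  have hk := check_true
  unfold check at hk
  simp only [List.all_eq_true, List.mem_range, Bool.or_eq_true, decide_eq_true_eq] at hk
  have h1 := hk d (by omega) c (by omega) e (by omega)
  rcases h1 with h1 | h1
  · omega
  have h2 := h1 b (by omega)
  rcases h2 with h2 | h2
  · omega
  have h3 := h2 f (by omega)
  rcases h3 with h3 | h3
  · omega
  have h4 := h3 a (by omega)
  have hg : 14 - (3 * c + 4 * d + 3 * e + 2 * b + 2 * f) - a = g := by omega
  rw [hg] at h4
  rcases h4 with h4 | h4
  · exact Nat.le_of_ble_eq_true h4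
  · rw [hs] at h4
    simp at h4

/-- the example -/
def M₀ : Matrix (Fin 4) (Fin 4) ℕ := !![0, 2, 1, 1; 2, 1, 1, 0; 0, 1, 0, 2; 1, 0, 2, 0]

lemma M₀_shape : shape M₀ = [6, 6, 1, 1] := by decide +kernel

lemma M₀_inv : inv M₀ = 29 := by decide +kernel

lemma M₀_not_hankel : ¬ IsHankel M₀ := by
  rintro ⟨s, h⟩
  have h1 := h 0 2
  have h2 := h 2 0
  have h3 : M₀ 0 2 = 1 := rfl
  have h4 : M₀ 2 0 = 0 := rfl
  rw [h3] at h1
  rw [h4] at h2
  have h5 : ((0 : Fin 4) : ℕ) + ((2 : Fin 4) : ℕ) = ((2 : Fin 4) : ℕ) + ((0 : Fin 4) : ℕ) := rfl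
  rw [h5] at h1
  omega

/-- **The answer to Q1 is no.** -/
theorem result :
    (∃ M : Matrix (Fin 4) (Fin 4) ℕ, IsMinimal [6, 6, 1, 1] M ∧ ¬ IsHankel M) ∧
    ¬ ∀ (n : ℕ) (la : List ℕ), IsPartition n la →
      ∀ M : Matrix (Fin n) (Fin n) ℕ, IsMinimal la M → M.IsSymm ∧ IsHankel M := by
  have key : ∃ M : Matrix (Fin 4) (Fin 4) ℕ, IsMinimal [6, 6, 1, 1] M ∧ ¬ IsHankel M := by
    -- a minimal matrix exists
    have hex : ∃ v, ∃ M : Matrix (Fin 4) (Fin 4) ℕ, shape M = [6, 6, 1, 1] ∧ inv M = v :=
      ⟨_, M₀, M₀_shape, rfl⟩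
    classical
    obtain ⟨H, hH1, hH2⟩ := Nat.find_spec hex
    have hHmin : IsMinimal [6, 6, 1, 1] H :=
      ⟨hH1, fun N hN => by rw [hH2]; exact Nat.find_min' hex ⟨N, hN, rfl⟩⟩
    by_cases hk : IsHankel H
    · have h29 := hankel_ge H hk hH1
      exact ⟨M₀, ⟨M₀_shape, fun N hN => by
        rw [M₀_inv]; exact h29.trans (hHmin.2 N hN)⟩, M₀_not_hankel⟩
    · exact ⟨H, hHmin, hk⟩
  refine ⟨key, fun h => ?_⟩
  obtain ⟨M, hM, hn⟩ := key
  exact hn (h 4 [6, 6, 1, 1] ⟨rfl, by decide, by decide⟩ M hM).2

end Pool.Agent.Results.MP_5baea4_co.NotHankel
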